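import Pool.Agent.Helper74.UB.Goals4

/-!
# UB-CORN: events at time `0` in case (B)
-/

namespace Pool.Agent.Helper3.UB

open Finset Equiv Helper28.VF Pool.Agent.Helper74.UB
open scoped Classical

theorem corn (hSq : StmtSq) (hCA : StmtConeAd) (hBF : StmtBaseF) (hTF : StmtTpF) : StmtCorn := by
  intro K h V D E F E' F' _ _ _ _ _ _ L f M dE dW dU dN I M' y0 y1 c v₀ A Q X T R₁ R₂ hS hI hT
  have hB := hS.base
  obtain ⟨q0, hq0⟩ := hI
  rcases hB.start with ⟨-, hno, -, -⟩ | ⟨hy1, hev, ⟨j, hj⟩, ⟨q, hq⟩, hc2, -⟩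
  · exact absurd hq0 (hno q0)
  obtain ⟨hy0, hyh⟩ := hB.rng
  have hy0h : y0 < h := by omega
  have hF := hB.host.flat
  have hqf : q.1 = M.fc (dE (f y0 j)) := (hj q.1).1 q.2
  obtain ⟨-, hsq⟩ := hSq K h V D E F L f M dE dW dU dN hB.host hB.lm y0 j hy0 hy0h hev
  obtain ⟨-, hca, -⟩ := hCA D V E F E' F' M I M' hB.cone
  obtain ⟨-, -, -, -, -, ⟨htp, hbt⟩, -, -, -⟩ :=
    hBF K h V D E F E' F' L f M dE dW dU dN I M' y0 y1 c v₀ A Q hB
  have hN : (1 : ZMod (3 * 2 ^ K)) ≠ 0 := by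
    have : Fact (1 < 3 * 2 ^ K) := ⟨by
      have : 1 ≤ 2 ^ K := Nat.one_le_two_pow
      omega⟩
    exact one_ne_zero
  have hup : ∀ i, L.up (f y0 i) (f (y0 + 1) i) := by
    intro i
    obtain ⟨y, rfl⟩ := Int.eq_ofNat_of_zero_le hy0
    exact (hF.upS y i _ (Nat.zero_le _) (by exact_mod_cast hy0h) (by exact_mod_cast hev)).2 rfl
  have v0A : v₀ ∈ A 0 := by
    rw [hB.fire.zero]
    exact mem_singleton_self _
  have corner : ∀ v, (∃ d, M.fc d = M.fc (dE (f y0 j)) ∧ M.vt d = v) →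
      Sum.inl v ∈ A 1 ∨ Sum.inl v ∈ Q 0 := by
    rintro v ⟨d, hd1, hd2⟩
    refine hB.fire.spread 0 v₀ v0A _ ?_
    rw [hq]
    exact ((hca q v).1).2 ⟨d, hd1.trans hqf.symm, hd2⟩
  have c1 : Sum.inl (f y0 j) ∈ A 1 ∨ Sum.inl (f y0 j) ∈ Q 0 :=
    corner _ ⟨_, rfl, hB.lm.vE _⟩
  have c2 : Sum.inl (f y0 (j + 1)) ∈ A 1 ∨ Sum.inl (f y0 (j + 1)) ∈ Q 0 :=
    corner _ ⟨dU (f y0 (j + 1)) (f (y0 + 1) (j + 1)), (hsq _).2 (Or.inr (Or.inl rfl)),
      hB.lm.vU _ _ (hup _)⟩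
  have hes : ∀ (r : ℤ) i, 0 ≤ r → r ≤ (h : ℤ) → L.e (f r i) = f r (i + 1) := by
    intro r i h1 h2
    lift r to ℕ using h1
    exact hF.e r i (Nat.zero_le _) (by exact_mod_cast h2)
  have c3 : Sum.inl (f (y0 + 1) (j + 1)) ∈ A 1 ∨ Sum.inl (f (y0 + 1) (j + 1)) ∈ Q 0 :=
    corner _ ⟨dW (f (y0 + 1) j), (hsq _).2 (Or.inr (Or.inr (Or.inl rfl))), by
      rw [hB.lm.vW, hes _ _ (by omega) (by omega)]⟩
  have c4 : Sum.inl (f (y0 + 1) j) ∈ A 1 ∨ Sum.inl (f (y0 + 1) j) ∈ Q 0 :=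
    corner _ ⟨dN (f y0 j) (f (y0 + 1) j), (hsq _).2 (Or.inr (Or.inr (Or.inr rfl))),
      hB.lm.vN _ _ (hup _)⟩
  have hcard : (Q 0).card ≤ 3 := by
    have := hB.fire.card 0
    omega
  have hrow : ∀ (r : ℤ) i, 0 ≤ r → r ≤ (h : ℤ) → L.row (f r i) = r := by
    intro r i h1 h2
    lift r to ℕ using h1
    exact hF.row r i (Nat.zero_le _) (by exact_mod_cast h2)
  have hne : ∀ (r : ℤ) i, 0 ≤ r → r ≤ (h : ℤ) → f r i ≠ f r (i + 1) := by
    intro r i h1 h2 he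
    lift r to ℕ using h1
    have := hF.inj r i (i + 1) (Nat.zero_le _) (by exact_mod_cast h2) he
    apply hN
    have h3 : i + 0 = i + 1 := by rw [add_zero]; exact this
    exact (add_left_cancel h3).symm
  have hne2 : ∀ i i', f y0 i ≠ f (y0 + 1) i' := by
    intro i i' he
    have := congrArg L.row he
    rw [hrow _ _ hy0 (by omega), hrow _ _ (by omega) (by omega)] at this
    omega
  have four : Sum.inl (f y0 j) ∈ Q 0 → Sum.inl (f y0 (j + 1)) ∈ Q 0 →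
      Sum.inl (f (y0 + 1) j) ∈ Q 0 → Sum.inl (f (y0 + 1) (j + 1)) ∈ Q 0 → False := by
    intro a1 a2 a3 a4
    have hsub : ({Sum.inl (f y0 j), Sum.inl (f y0 (j + 1)), Sum.inl (f (y0 + 1) j),
        Sum.inl (f (y0 + 1) (j + 1))} : Finset (VC V I)) ⊆ Q 0 := by
      intro u hu
      simp only [mem_insert, mem_singleton] at hu
      rcases hu with rfl | rfl | rfl | rfl
      · exact a1
      · exact a2
      · exact a3
      · exact a4
    have h4 : ({Sum.inl (f y0 j), Sum.inl (f y0 (j + 1)), Sum.inl (f (y0 + 1) j),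
        Sum.inl (f (y0 + 1) (j + 1))} : Finset (VC V I)).card = 4 := by
      rw [card_insert_of_notMem, card_insert_of_notMem, card_insert_of_notMem, card_singleton]
      · simp only [mem_singleton, Sum.inl.injEq]
        exact hne _ _ (by omega) (by omega)
      · simp only [mem_insert, mem_singleton, Sum.inl.injEq, not_or]
        exact ⟨hne2 _ _, hne2 _ _⟩
      · simp only [mem_insert, mem_singleton, Sum.inl.injEq, not_or]
        exact ⟨hne _ _ (by omega) (by omega), hne2 _ _, hne2 _ _⟩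
    have := card_le_card hsub
    omega
  obtain ⟨⟨-, htpA, -⟩, -, -, -⟩ := hTF V {q : F // I q} L.row y0 (A 1)
  obtain ⟨-, ⟨-, hbtA, -⟩, -, -⟩ := hTF V {q : F // I q} L.row y1 (A 1)
  have up : R₁.p 0 0 ∈ Q 0 → Sum.inl (f (y0 + 1) j) ∈ Q 0 ∧
      Sum.inl (f (y0 + 1) (j + 1)) ∈ Q 0 := by
    intro hp
    obtain ⟨h1, -⟩ := hS.e1 0 hT hp (by rw [htp]; exact hy0h)
    rw [htp] at h1
    have hnot : ∀ i, Sum.inl (f (y0 + 1) i) ∉ A 1 := by
      intro i hi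
      have h2 := htpA _ hi
      rw [hrow _ _ (by omega) (by omega)] at h2
      have h1' : tp L.row y0 (A 1) = y0 := h1
      omega
    exact ⟨c4.resolve_left (hnot _), c3.resolve_left (hnot _)⟩
  have dn : R₂.p 0 0 ∈ Q 0 → Sum.inl (f y0 j) ∈ Q 0 ∧ Sum.inl (f y0 (j + 1)) ∈ Q 0 := by
    intro hp
    obtain ⟨h1, -⟩ := hS.e2 0 hT hp (by rw [hbt]; omega)
    rw [hbt] at h1
    have hnot : ∀ i, Sum.inl (f y0 i) ∉ A 1 := by
      intro i hi
      have h2 := hbtA _ hi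
      rw [hrow _ _ (by omega) (by omega)] at h2
      have h1' : bt L.row y1 (A 1) = y1 := h1
      omega
    exact ⟨c1.resolve_left (hnot _), c2.resolve_left (hnot _)⟩
  refine ⟨?_, ?_, ?_⟩
  · rintro ⟨hp1, hp2⟩
    obtain ⟨a3, a4⟩ := up hp1
    obtain ⟨a1, a2⟩ := dn hp2
    exact four a1 a2 a3 a4
  · intro hp
    obtain ⟨a3, a4⟩ := up hp
    refine ⟨?_, j, by rw [hy1]; exact a3, by rw [hy1]; exact a4⟩
    have hex : ∃ i, Sum.inl (f y0 i) ∈ A 1 := by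
      rcases c1 with h1 | h1
      · exact ⟨_, h1⟩
      · rcases c2 with h2 | h2
        · exact ⟨_, h2⟩
        · exact (four h1 h2 a3 a4).elim
    obtain ⟨i, hi⟩ := hex
    have h2 := hbtA _ hi
    rwa [hrow _ _ hy0 (by omega)] at h2
  · intro hp
    obtain ⟨a1, a2⟩ := dn hp
    refine ⟨?_, j, a1, a2⟩
    have hex : ∃ i, Sum.inl (f (y0 + 1) i) ∈ A 1 := by
      rcases c4 with h1 | h1
      · exact ⟨_, h1⟩
      · rcases c3 with h2 | h2
        · exact ⟨_, h2⟩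
        · exact (four a1 a2 h1 h2).elim
    obtain ⟨i, hi⟩ := hex
    have h2 := htpA _ hi
    rw [hrow _ _ (by omega) (by omega)] at h2
    omega

end Pool.Agent.Helper3.UB
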