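import Pool.Agent.Helper74.UB.Goals1

/-!
# UB-ONE: the boundary of one vertex
-/

namespace Pool.Agent.Helper3.UB

open Finset Equiv Helper28.VF Pool.Agent.Helper74.UB
open scoped Classical

theorem one : StmtOne := by
  intro D V E F _ _ _ _ M hS p
  have hvt : ∀ d, M.vt (ph M d) = tg M d := fun d =>
    (M.vt_iff _ _).2 (Equiv.Perm.sameCycle_apply_left.2 (Equiv.Perm.SameCycle.refl _ _))
  have hpow : ∀ e d, M.fc e = M.fc d → ∃ i : ℕ, ((M.σ * M.α) ^ i) e = d := by
    intro e d h
    obtain ⟨i, _, hi⟩ := ((M.fc_iff e d).1 h).exists_pow_eq'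
    exact ⟨i, hi⟩
  have hstep : ∀ (i : ℕ) (e : D), ((M.σ * M.α) ^ (i + 1)) e = ph M (((M.σ * M.α) ^ i) e) := by
    intro i e
    rw [pow_succ']
    rfl
  have h3 : ∀ e, T3 M e → ∀ i : ℕ, ((M.σ * M.α) ^ i) e = e ∨ ((M.σ * M.α) ^ i) e = ph M e ∨
      ((M.σ * M.α) ^ i) e = ph M (ph M e) := by
    intro e he i
    induction i with
    | zero => exact Or.inl rfl
    | succ i ih =>
      rw [hstep]
      rcases ih with h | h | h
      · exact Or.inr (Or.inl (by rw [h]))
      · exact Or.inr (Or.inr (by rw [h]))
      · exact Or.inl (by rw [h]; exact he)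
  have h4 : ∀ e, T4 M e → ∀ i : ℕ, ((M.σ * M.α) ^ i) e = e ∨ ((M.σ * M.α) ^ i) e = ph M e ∨
      ((M.σ * M.α) ^ i) e = ph M (ph M e) ∨ ((M.σ * M.α) ^ i) e = ph M (ph M (ph M e)) := by
    intro e he i
    induction i with
    | zero => exact Or.inl rfl
    | succ i ih =>
      rw [hstep]
      rcases ih with h | h | h | h
      · exact Or.inr (Or.inl (by rw [h]))
      · exact Or.inr (Or.inr (Or.inl (by rw [h])))
      · exact Or.inr (Or.inr (Or.inr (by rw [h])))
      · exact Or.inl (by rw [h]; exact he.1)
  have key : bd M {p} ⊆ (univ.filter (fun g => M.vt g = p)).biUnion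
      (fun g => if T3 M g then ({ph M g} : Finset D) else {ph M g, ph M (ph M g)}) := by
    intro d hd
    obtain ⟨⟨e, he1, he2⟩, hd1, hd2⟩ := (mem_filter.1 hd).2
    rw [mem_singleton] at he2 hd1 hd2
    obtain ⟨i, hi⟩ := hpow e d he1
    rw [mem_biUnion]
    refine ⟨e, by simp [he2], ?_⟩
    by_cases ht : T3 M e
    · rw [if_pos ht, mem_singleton]
      rcases h3 e ht i with h | h | h
      · exact absurd (by rw [← hi, h]; exact he2) hd1
      · rw [← hi, h]
      · exfalso
        apply hd2
        rw [← hvt, ← hi, h]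
        have : ph M (ph M (ph M e)) = e := ht
        rw [this]
        exact he2
    · rw [if_neg ht, mem_insert, mem_singleton]
      have hq : T4 M e := (hS.face e).resolve_left ht
      rcases h4 e hq i with h | h | h | h
      · exact absurd (by rw [← hi, h]; exact he2) hd1
      · exact Or.inl (by rw [← hi, h])
      · exact Or.inr (by rw [← hi, h])
      · exfalso
        apply hd2
        rw [← hvt, ← hi, h]
        have : ph M (ph M (ph M (ph M e))) = e := hq.1
        rw [this]
        exact he2
  calc (bd M {p}).card ≤ _ := card_le_card key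
    _ ≤ _ := card_biUnion_le
    _ ≤ link M p := by
      unfold link
      apply sum_le_sum
      intro g _
      split_ifs
      · simp
      · exact card_le_two

end Pool.Agent.Helper3.UB
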